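import Pool.Agent.Helper75.PZ.GoalsA

/-!
# Packet PZ-EKE (MP_acfd82_an): the Ekeland principle for pairs of points
-/

namespace Pool.Agent.Helper99.PZ

open Pool.Agent.Helper75.PZ Filter Topology

/-- The order of the Ekeland principle: `w` is below `z`. -/
def ordE {M : Type} [MetricSpace M] (c : ℝ) (w z : M × M) : Prop :=
  c * (dist z.1 w.1 + dist z.2 w.2) + dist w.1 w.2 ≤ dist z.1 z.2

theorem ordE_refl {M : Type} [MetricSpace M] (c : ℝ) (z : M × M) : ordE c z z := by
  simp [ordE]

theorem ordE_trans {M : Type} [MetricSpace M] {c : ℝ} (hc : 0 < c) {u w z : M × M}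
    (h1 : ordE c u w) (h2 : ordE c w z) : ordE c u z := by
  unfold ordE at *
  have a1 : dist z.1 u.1 ≤ dist z.1 w.1 + dist w.1 u.1 := dist_triangle _ _ _
  have a2 : dist z.2 u.2 ≤ dist z.2 w.2 + dist w.2 u.2 := dist_triangle _ _ _
  have a3 : c * (dist z.1 u.1 + dist z.2 u.2)
      ≤ c * ((dist z.1 w.1 + dist w.1 u.1) + (dist z.2 w.2 + dist w.2 u.2)) :=
    mul_le_mul_of_nonneg_left (add_le_add a1 a2) hc.le
  linarith

/-- The admissible pairs below `z`. -/
def lowE {M : Type} [MetricSpace M] (c r : ℝ) (x y : M) (z : M × M) : Set (M × M) :=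
  {w | dist x w.1 ≤ r ∧ dist y w.2 ≤ r ∧ ordE c w z}

theorem lowE_closed {M : Type} [MetricSpace M] (c r : ℝ) (x y : M) (z : M × M) :
    IsClosed (lowE c r x y z) := by
  have h1 : IsClosed {w : M × M | dist x w.1 ≤ r} :=
    isClosed_le (continuous_const.dist continuous_fst) continuous_const
  have h2 : IsClosed {w : M × M | dist y w.2 ≤ r} :=
    isClosed_le (continuous_const.dist continuous_snd) continuous_const
  have h3 : IsClosed {w : M × M | ordE c w z} := by
    unfold ordE
    refine isClosed_le ?_ continuous_const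
    exact (continuous_const.mul ((continuous_const.dist continuous_fst).add
      (continuous_const.dist continuous_snd))).add (continuous_fst.dist continuous_snd)
  exact h1.inter (h2.inter h3)

theorem step_exists {M : Type} [MetricSpace M] (c r : ℝ) (x y : M) (z : M × M)
    (h1 : dist x z.1 ≤ r) (h2 : dist y z.2 ≤ r) (e : ℝ) (he : 0 < e) :
    ∃ w ∈ lowE c r x y z, ∀ u ∈ lowE c r x y z, dist w.1 w.2 ≤ dist u.1 u.2 + e := by
  have hz : z ∈ lowE c r x y z := ⟨h1, h2, ordE_refl c z⟩
  have hne : ((fun w : M × M => dist w.1 w.2) '' lowE c r x y z).Nonempty :=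
    ⟨_, z, hz, rfl⟩
  have hbd : BddBelow ((fun w : M × M => dist w.1 w.2) '' lowE c r x y z) := by
    refine ⟨0, ?_⟩
    rintro _ ⟨w, _, rfl⟩
    exact dist_nonneg
  obtain ⟨a, ⟨w, hw, rfl⟩, ha⟩ := Real.lt_sInf_add_pos hne he
  refine ⟨w, hw, fun u hu => ?_⟩
  have := csInf_le hbd ⟨u, hu, rfl⟩
  simp only at ha this
  linarith

/-- Packet EKE: the Ekeland principle for pairs. -/
theorem eke : P_EKE := by
  intro M _ _ c r x y hc hr
  classical
  -- the admissible pairs
  let X := {z : M × M // dist x z.1 ≤ r ∧ dist y z.2 ≤ r}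
  have hstep : ∀ (n : ℕ) (z : X), ∃ w : X, w.1 ∈ lowE c r x y z.1 ∧
      ∀ u ∈ lowE c r x y z.1, dist w.1.1 w.1.2 ≤ dist u.1 u.2 + (1 / 2 : ℝ) ^ n := by
    intro n z
    obtain ⟨w, hw, hu⟩ := step_exists c r x y z.1 z.2.1 z.2.2 ((1 / 2 : ℝ) ^ n) (by positivity)
    exact ⟨⟨w, hw.1, hw.2.1⟩, hw, hu⟩
  choose nx hnx1 hnx2 using hstep
  let z : ℕ → X := fun n => Nat.rec (motive := fun _ => X)
    ⟨(x, y), by simpa using hr, by simpa using hr⟩ (fun n w => nx n w) n
  have hz0 : (z 0).1 = (x, y) := rfl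
  have hzs : ∀ n, z (n + 1) = nx n (z n) := fun n => rfl
  have hord1 : ∀ n, ordE c (z (n + 1)).1 (z n).1 := by
    intro n
    rw [hzs]
    exact (hnx1 n (z n)).2.2
  have hord : ∀ n m, n ≤ m → ordE c (z m).1 (z n).1 := by
    intro n m hnm
    induction m, hnm using Nat.le_induction with
    | base => exact ordE_refl c _
    | succ m _ ih => exact ordE_trans hc (hord1 m) ih
  have hanti : Antitone (fun n => dist (z n).1.1 (z n).1.2) := by
    intro n m hnm
    have h := hord n m hnm
    unfold ordE at h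
    have : 0 ≤ c * (dist (z n).1.1 (z m).1.1 + dist (z n).1.2 (z m).1.2) := by positivity
    simp only
    linarith
  have hbdd : BddBelow (Set.range (fun n => dist (z n).1.1 (z n).1.2)) := by
    refine ⟨0, ?_⟩
    rintro _ ⟨n, rfl⟩
    exact dist_nonneg
  have hlim := tendsto_atTop_ciInf hanti hbdd
  set L := ⨅ i, dist (z i).1.1 (z i).1.2 with hL
  have hge : ∀ n, L ≤ dist (z n).1.1 (z n).1.2 := fun n => ciInf_le hbdd n
  have hb0 : Tendsto (fun n => (dist (z n).1.1 (z n).1.2 - L) / c) atTop (𝓝 0) := by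
    have := (hlim.sub_const L).div_const c
    simpa using this
  have hC1 : CauchySeq (fun n => (z n).1.1) := by
    refine cauchySeq_of_le_tendsto_0' _ (fun n m hnm => ?_) hb0
    have h := hord n m hnm
    unfold ordE at h
    rw [le_div_iff₀ hc]
    have h2 := hge m
    have h3 : 0 ≤ c * dist (z n).1.2 (z m).1.2 := by positivity
    nlinarith
  have hC2 : CauchySeq (fun n => (z n).1.2) := by
    refine cauchySeq_of_le_tendsto_0' _ (fun n m hnm => ?_) hb0
    have h := hord n m hnm
    unfold ordE at h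
    rw [le_div_iff₀ hc]
    have h2 := hge m
    have h3 : 0 ≤ c * dist (z n).1.1 (z m).1.1 := by positivity
    nlinarith
  obtain ⟨x', hx'⟩ := cauchySeq_tendsto_of_complete hC1
  obtain ⟨y', hy'⟩ := cauchySeq_tendsto_of_complete hC2
  have hpt : Tendsto (fun n => (z n).1) atTop (𝓝 ((x', y') : M × M)) := by
    rw [nhds_prod_eq]
    exact hx'.prodMk hy'
  have hmem : ∀ n, ((x', y') : M × M) ∈ lowE c r x y (z n).1 := by
    intro n
    refine (lowE_closed c r x y (z n).1).mem_of_tendsto hpt ?_
    filter_upwards [eventually_ge_atTop n] with m hm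
    exact ⟨(z m).2.1, (z m).2.2, hord n m hm⟩
  have h0 := hmem 0
  refine ⟨x', y', h0.1, h0.2.1, ?_, ?_⟩
  · have := h0.2.2
    unfold ordE at this
    simpa [hz0] using this
  · intro u v hu hv huv
    have hw : ordE c (u, v) (x', y') := huv
    have hfw : ∀ n : ℕ, dist x' y' ≤ dist u v + (1 / 2 : ℝ) ^ n := by
      intro n
      have h1 : ((u, v) : M × M) ∈ lowE c r x y (z n).1 :=
        ⟨hu, hv, ordE_trans hc hw (hmem n).2.2⟩
      have h2 := hnx2 n (z n) _ h1
      rw [← hzs] at h2
      have h3 := (hmem (n + 1)).2.2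
      unfold ordE at h3
      have h4 : 0 ≤ c * (dist (z (n + 1)).1.1 x' + dist (z (n + 1)).1.2 y') := by positivity
      simp only at h2 h3 h4
      linarith
    have hle : dist x' y' ≤ dist u v := by
      have ht : Tendsto (fun n : ℕ => dist u v + (1 / 2 : ℝ) ^ n) atTop (𝓝 (dist u v + 0)) :=
        tendsto_const_nhds.add (tendsto_pow_atTop_nhds_zero_of_lt_one (by norm_num) (by norm_num))
      rw [add_zero] at ht
      exact ge_of_tendsto' ht hfw
    have h5 : c * (dist x' u + dist y' v) ≤ 0 := by linarith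
    have h6 : dist x' u + dist y' v ≤ 0 := by
      by_contra hcon
      push Not at hcon
      have := mul_pos hc hcon
      linarith
    have h7 : dist x' u = 0 := by
      have a := dist_nonneg (x := x') (y := u)
      have b := dist_nonneg (x := y') (y := v)
      linarith
    have h8 : dist y' v = 0 := by
      have a := dist_nonneg (x := x') (y := u)
      have b := dist_nonneg (x := y') (y := v)
      linarith
    exact ⟨(dist_eq_zero.mp h7).symm, (dist_eq_zero.mp h8).symm⟩

end Pool.Agent.Helper99.PZ
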